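import Mathlib

set_option autoImplicit false

namespace Pool.Agent.H.MP_d85bbb_an

open Filter Topology Set Metric

lemma smooth {X : Type} [NormedAddCommGroup X] [NormedSpace ℝ X] {x : X} {f : X →L[ℝ] ℝ}
    (h1 : ‖f‖ ≤ 1) (h2 : f x = ‖x‖) (h : ∀ g : X →L[ℝ] ℝ, ‖g‖ ≤ 1 → g x = ‖x‖ → g = f) (v : X) :
    HasLineDerivAt ℝ (fun y : X => ‖y‖) (f v) x v := by
  have l : ∀ {g : X →L[ℝ] ℝ}, ‖g‖ ≤ 1 → ∀ y, |g y| ≤ ‖y‖ := fun h y =>
    (ContinuousLinearMap.le_opNorm _ y).trans (mul_le_of_le_one_left (norm_nonneg _) h)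
  choose d d1 d2 using fun t : ℝ => exists_dual_vector'' ℝ (x + t • v)
  have d3 : ∀ t, d t x + t * d t v = ‖x + t • v‖ := fun t => by simpa using d2 t
  have t0 : Tendsto (fun t => d t x) (𝓝 0) (𝓝 ‖x‖) := by
    refine tendsto_of_tendsto_of_tendsto_of_le_of_le (g := fun t => ‖x + t • v‖ - |t| * ‖v‖)
      (Continuous.tendsto' (by fun_prop) _ _ (by simp)) tendsto_const_nhds (fun t => ?_)
      fun t => (le_abs_self _).trans (l (d1 t) x)
    have := (le_abs_self _).trans ((abs_mul _ _).trans_le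
      (mul_le_mul_of_nonneg_left (l (d1 t) v) (abs_nonneg t)))
    linarith [d3 t]
  have t1 : Tendsto (fun t => StrongDual.toWeakDual (d t)) (𝓝 0) (𝓝 (StrongDual.toWeakDual f)) :=
    (WeakDual.isCompact_closedBall (0 : StrongDual ℝ X) 1).tendsto_nhds_of_unique_mapClusterPt
      (.of_forall fun t => mem_closedBall_zero_iff.2 (d1 t)) fun g g1 g2 =>
        h g (mem_closedBall_zero_iff.1 g1) (eq_of_nhds_neBot ((g2.continuousAt_comp
          (WeakDual.eval_continuous x).continuousAt).clusterPt.mono t0).neBot)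
  have t2 : Tendsto (fun t => d t v - f v) (𝓝 0) (𝓝 0) :=
    tendsto_sub_nhds_zero_iff.2 (((WeakDual.eval_continuous v).tendsto _).comp t1)
  refine hasDerivAt_iff_isLittleO_nhds_zero.2 (Asymptotics.isLittleO_iff.2 fun c hc => ?_)
  filter_upwards [t2.norm.eventually (eventually_le_nhds (by simpa using hc))] with t ht
  have a : f x + t * f v ≤ ‖x + t • v‖ := by simpa using (le_abs_self _).trans (l h1 (x + t • v))
  have b := (le_abs_self _).trans (l (d1 t) x)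
  have e := (le_abs_self _).trans ((abs_mul _ _).trans_le
    (mul_le_mul_of_nonneg_left ht (abs_nonneg t)))
  simp only [zero_add, zero_smul, add_zero, smul_eq_mul, Real.norm_eq_abs]
  rw [abs_of_nonneg (by linarith)]
  linarith [d3 t]

abbrev G := lp (fun _ : ℕ => ℝ) 2
abbrev P := WithLp 2 (G × G × ℂ)

noncomputable def w (m : ℕ) : ℝ := (1 / 2) ^ m / (m + 2)
noncomputable def q (m : ℕ) (r a t : ℝ) : ℝ :=
  w m ^ 2 * (r ^ 2 + max (r ^ 2) ((m * a) ^ 2 + (t - a) ^ 2))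

lemma w0 (m : ℕ) : 0 < w m := by
  unfold w
  positivity

lemma q0 (m : ℕ) (r a t : ℝ) : 0 ≤ q m r a t := by
  unfold q
  positivity

lemma q1 (m : ℕ) (r a t : ℝ) : q m r a t ≤ (1 / 2) ^ m * (r ^ 2 + a ^ 2 + t ^ 2) := by
  have m0 : (0 : ℝ) ≤ m := m.cast_nonneg
  have h1 : r ^ 2 + max (r ^ 2) ((m * a) ^ 2 + (t - a) ^ 2) ≤ (m + 2) ^ 2 * (r ^ 2 + a ^ 2 + t ^ 2) := by
    have : max (r ^ 2) ((m * a) ^ 2 + (t - a) ^ 2) ≤ r ^ 2 + ((m * a) ^ 2 + (t - a) ^ 2) :=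
      max_le_add_of_nonneg (by positivity) (by positivity)
    nlinarith [sq_nonneg (t + a), sq_nonneg r, sq_nonneg t, sq_nonneg a, sq_nonneg (m * r),
      sq_nonneg (m * t), mul_nonneg m0 (sq_nonneg r), mul_nonneg m0 (sq_nonneg t),
      mul_nonneg m0 (sq_nonneg a)]
  refine (mul_le_mul_of_nonneg_left h1 (sq_nonneg _)).trans ?_
  rw [← mul_assoc, ← mul_pow, w, div_mul_cancel₀ _ (by positivity)]
  exact mul_le_mul_of_nonneg_right (pow_le_of_le_one (by positivity)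
    (pow_le_one₀ (by norm_num) (by norm_num)) two_ne_zero) (by positivity)

lemma co (e : G) (i : ℕ) : |e i| ≤ ‖e‖ := lp.norm_apply_le_norm two_ne_zero e i

lemma q2 (m : ℕ) (r t : ℝ) {a B : ℝ} (h : |a| ≤ B) :
    q m r a t ≤ (1 / 2) ^ m * (r ^ 2 + B ^ 2 + t ^ 2) :=
  (q1 m r a t).trans (mul_le_mul_of_nonneg_left (by
    linarith [sq_le_sq.2 (h.trans (le_abs_self B))]) (by positivity))

noncomputable def j (m : ℕ) : G × ℝ →ₗ[ℝ] P where
  toFun y := w m • WithLp.toLp 2 (y.1, y.1, ⟨m * y.1 m.unpair.1, y.2 - y.1 m.unpair.1⟩)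
  map_add' x y := by
    rw [← smul_add, ← WithLp.toLp_add]
    congr 2
    refine Prod.ext rfl (Prod.ext rfl (Complex.ext ?_ ?_)) <;> simp <;> ring
  map_smul' c x := by
    rw [RingHom.id_apply, smul_comm c, ← WithLp.toLp_smul]
    congr 2
    refine Prod.ext rfl (Prod.ext rfl (Complex.ext ?_ ?_)) <;> simp <;> ring

lemma j_sq (m : ℕ) (y : G × ℝ) : ‖j m y‖ ^ 2 = q m ‖y.1‖ (y.1 m.unpair.1) y.2 := by
  simp only [j, LinearMap.coe_mk, AddHom.coe_mk]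
  rw [norm_smul, mul_pow, Real.norm_eq_abs, sq_abs, WithLp.prod_norm_sq_eq_of_L2, q]
  congr 2
  change (max _ _) ^ 2 = _
  rw [(pow_left_monotoneOn (n := 2)).map_max (norm_nonneg _) (norm_nonneg _), Complex.sq_norm,
    Complex.normSq_apply, ← sq, ← sq]
  rfl

lemma qs (r t : ℝ) {a : ℕ → ℝ} {B : ℝ} (h : ∀ m, |a m| ≤ B) : Summable fun m => q m r (a m) t :=
  (summable_geometric_two.mul_right _).of_nonneg_of_le (fun _ => q0 _ _ _ _) fun m => q2 m r t (h m)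

noncomputable def J : G × ℝ →ₗ[ℝ] lp (fun _ : ℕ => P) 2 where
  toFun y := ⟨fun m => j m y, memℓp_gen (by
    simpa [j_sq] using qs ‖y.1‖ y.2 fun m => co y.1 m.unpair.1)⟩
  map_add' x y := lp.ext (funext fun m => map_add (j m) x y)
  map_smul' c x := lp.ext (funext fun m => map_smul (j m) c x)

lemma J_sq (y : G × ℝ) : HasSum (fun m => q m ‖y.1‖ (y.1 m.unpair.1) y.2) (‖J y‖ ^ 2) := by
  simpa [J, j_sq] using lp.hasSum_norm (by norm_num) (J y)

lemma q3 {r a t N : ℝ} (h : q 0 r a t ≤ N ^ 2) (h0 : 0 ≤ N) : r ≤ 2 * N ∧ |t - a| ≤ 2 * N := by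
  simp only [q, w, pow_zero, Nat.cast_zero, zero_mul, zero_add (2 : ℝ)] at h
  have a1 := le_max_left (r ^ 2) (0 ^ 2 + (t - a) ^ 2)
  have a2 := le_max_right (r ^ 2) (0 ^ 2 + (t - a) ^ 2)
  generalize max (r ^ 2) (0 ^ 2 + (t - a) ^ 2) = M at *
  exact ⟨le_of_sq_le_sq (by nlinarith [sq_nonneg r]) (by positivity),
    abs_le_of_sq_le_sq (by nlinarith [sq_nonneg r]) (by positivity)⟩

lemma J_ge (y : G × ℝ) : ‖y.1‖ ≤ 2 * ‖J y‖ ∧ |y.2| ≤ 4 * ‖J y‖ := by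
  obtain ⟨c, d⟩ := q3 (a := y.1 0) (le_hasSum (J_sq y) 0 fun _ _ => q0 _ _ _ _) (norm_nonneg _)
  exact ⟨c, by linarith [co y.1 0, abs_sub_abs_le_abs_sub y.2 (y.1 0)]⟩

lemma J_le (y : G × ℝ) : ‖J y‖ ≤ 2 * (‖y.1‖ + |y.2|) := by
  have := hasSum_le (fun m => q2 m _ _ (co y.1 m.unpair.1)) (J_sq y)
    (hasSum_geometric_two.mul_right _)
  refine le_of_sq_le_sq ?_ (by positivity)
  nlinarith [sq_abs y.2, mul_nonneg (norm_nonneg y.1) (abs_nonneg y.2)]

def Y : Type := G × ℝ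

noncomputable instance : AddCommGroup Y := inferInstanceAs (AddCommGroup (G × ℝ))
noncomputable instance : Module ℝ Y := inferInstanceAs (Module ℝ (G × ℝ))
noncomputable def J' : Y →ₗ[ℝ] lp (fun _ : ℕ => P) 2 := J
noncomputable instance : NormedAddCommGroup Y := NormedAddCommGroup.induced Y _ J'
  ((injective_iff_map_eq_zero J).2 fun y h => by
    have := J_ge y
    rw [h, norm_zero, mul_zero, mul_zero] at this
    exact Prod.ext (norm_le_zero_iff.1 this.1) (abs_nonpos_iff.1 this.2))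
noncomputable instance : NormedSpace ℝ Y := NormedSpace.induced ℝ Y _ J'

def pr (e : G) (t : ℝ) : Y := (e, t)

lemma nsq (y : Y) : HasSum (fun m => q m ‖y.1‖ (y.1 m.unpair.1) y.2) (‖y‖ ^ 2) := J_sq y
lemma n1 (y : Y) : ‖y.1‖ ≤ 2 * ‖y‖ := (J_ge y).1
lemma n2 (y : Y) : |y.2| ≤ 4 * ‖y‖ := (J_ge y).2
lemma n3 (e : G) (t : ℝ) : ‖pr e t‖ ≤ 2 * (‖e‖ + |t|) := J_le (e, t)

lemma big (i N : ℕ) : ∃ m : ℕ, m.unpair.1 = i ∧ N ≤ m :=
  ⟨i.pair N, by simp, Nat.right_le_pair _ _⟩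

lemma sc {y z : Y} (h1 : ‖y‖ ≤ 1) (h2 : ‖z‖ ≤ 1) (h : 2 ≤ ‖y + z‖) : y = z := by
  have s := (((nsq y).mul_left 2).add ((nsq z).mul_left 2)).sub (nsq (y + z))
  have e1 : (y + z).1 = y.1 + z.1 := rfl
  have e2 : (y + z).2 = y.2 + z.2 := rfl
  have p := parallelogram_law_with_norm ℝ y.1 z.1
  have b : ∀ m : ℕ, w m ^ 2 * ‖y.1 - z.1‖ ^ 2 ≤ 2 * q m ‖y.1‖ (y.1 m.unpair.1) y.2 +
      2 * q m ‖z.1‖ (z.1 m.unpair.1) z.2 -
        q m ‖(y + z).1‖ ((y + z).1 m.unpair.1) (y + z).2 := fun m => by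
    simp only [q, e1, e2, lp.coeFn_add, Pi.add_apply]
    set a := y.1 m.unpair.1
    set b := z.1 m.unpair.1
    have : max (‖y.1 + z.1‖ ^ 2) ((m * (a + b)) ^ 2 + (y.2 + z.2 - (a + b)) ^ 2) ≤
        2 * max (‖y.1‖ ^ 2) ((m * a) ^ 2 + (y.2 - a) ^ 2) +
          2 * max (‖z.1‖ ^ 2) ((m * b) ^ 2 + (z.2 - b) ^ 2) := max_le (by
      nlinarith [le_max_left (‖y.1‖ ^ 2) ((m * a) ^ 2 + (y.2 - a) ^ 2),
        le_max_left (‖z.1‖ ^ 2) ((m * b) ^ 2 + (z.2 - b) ^ 2), sq_nonneg ‖y.1 - z.1‖]) (by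
      nlinarith [le_max_right (‖y.1‖ ^ 2) ((m * a) ^ 2 + (y.2 - a) ^ 2),
        le_max_right (‖z.1‖ ^ 2) ((m * b) ^ 2 + (z.2 - b) ^ 2), sq_nonneg (m * (a - b)),
        sq_nonneg (y.2 - a - (z.2 - b))])
    nlinarith [mul_le_mul_of_nonneg_left this (sq_nonneg (w m))]
  have c := fun m => (le_hasSum s m fun m _ => le_trans (by positivity) (b m)).trans
    (show _ ≤ 0 by nlinarith [norm_nonneg y, norm_nonneg z])
  have d : y.1 = z.1 := sub_eq_zero.1 (norm_eq_zero.1 (pow_eq_zero_iff two_ne_zero |>.1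
    (le_antisymm (nonpos_of_mul_nonpos_right ((b 0).trans (c 0)) (pow_pos (w0 0) 2))
      (sq_nonneg _))))
  obtain ⟨m, hm⟩ : ∃ m : ℕ, ‖z.1‖ ^ 2 ≤ (m * z.1 m.unpair.1) ^ 2 := by
    by_cases h0 : z.1 = 0
    · exact ⟨0, by simp [h0]⟩
    obtain ⟨i, hi⟩ := not_forall.1 fun h => h0 (lp.ext (funext h))
    obtain ⟨N, hN⟩ := exists_nat_ge (‖z.1‖ / |z.1 i|)
    obtain ⟨m, rfl, m2⟩ := big i N
    rw [div_le_iff₀ (abs_pos.2 hi)] at hN
    refine ⟨m, sq_le_sq.2 ((abs_norm _).trans_le (hN.trans ?_))⟩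
    rw [abs_mul, Nat.abs_cast]
    gcongr
  have := c m
  simp only [q, e1, e2, d, ← two_smul ℝ z.1, norm_smul, Real.norm_two,
    lp.coeFn_smul, Pi.smul_apply, smul_eq_mul] at this
  rw [max_eq_right (by nlinarith), max_eq_right (by nlinarith), max_eq_right (by nlinarith)] at this
  exact Prod.ext d (sub_eq_zero.1 (pow_eq_zero_iff two_ne_zero |>.1 (le_antisymm
    (nonpos_of_mul_nonpos_right (by linarith) (pow_pos (w0 m) 2)) (sq_nonneg _))))

noncomputable def u (n : ℕ) : G := lp.single 2 n 1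

lemma u1 (n : ℕ) : ‖u n‖ = 1 := by simp [u]

lemma mn (n : ℕ) {t : ℝ} (h : ‖pr (u n) t‖ ≤ ‖pr (u n) 1‖) : t = 1 := by
  have s := (nsq (pr (u n) t)).sub (nsq (pr (u n) 1))
  obtain ⟨m, m1, m2⟩ := big n 1
  have := (le_hasSum s m fun m _ => by
    simp only [pr, q, u1, sub_nonneg]
    refine mul_le_mul_of_nonneg_left (add_le_add_right ?_ _) (sq_nonneg _)
    by_cases hm : m.unpair.1 = n
    · simp only [u, hm, lp.single_apply_self]
      exact max_le_max_left _ (by nlinarith [sq_nonneg (t - 1)])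
    · simp [u, hm]).trans (sub_nonpos.2 (by gcongr))
  have m3 : (1 : ℝ) ≤ m := by exact_mod_cast m2
  simp only [pr, q, u1, m1] at this
  simp only [u, lp.single_apply_self] at this
  rw [max_eq_right (by nlinarith), max_eq_right (by nlinarith)] at this
  exact sub_eq_zero.1 (pow_eq_zero_iff two_ne_zero |>.1 (le_antisymm
    (nonpos_of_mul_nonpos_right (by linarith) (pow_pos (w0 m) 2)) (sq_nonneg _)))

noncomputable def p1 : Y →L[ℝ] G := LinearMap.mkContinuous (E := Y) (LinearMap.fst ℝ G ℝ) 2 n1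
noncomputable def p2 : Y →L[ℝ] ℝ := LinearMap.mkContinuous (E := Y) (LinearMap.snd ℝ G ℝ) 4 n2
noncomputable def i1 : G →L[ℝ] Y := LinearMap.mkContinuous (F := Y) (LinearMap.inl ℝ G ℝ) 2
  fun e => (n3 e 0).trans_eq (by simp)

lemma pr_eq (e : G) (t : ℝ) : pr e t = i1 e + t • pr 0 1 :=
  Prod.ext (show e = e + t • 0 by simp) (show t = 0 + t * 1 by simp)

lemma rz (x : Y →L[ℝ] ℝ) : ∃ g : G, ∀ e, x (i1 e) = inner ℝ g e :=
  ⟨(InnerProductSpace.toDual ℝ G).symm (x.comp i1), fun e => by simp⟩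

lemma refl (Φ : (Y →L[ℝ] ℝ) →L[ℝ] ℝ) : ∃ y : Y, ‖y‖ = ‖Φ‖ ∧ ∀ x, Φ x = x y := by
  set e := (InnerProductSpace.toDual ℝ G).symm
    (Φ.comp (((ContinuousLinearMap.compL ℝ Y G ℝ).flip p1).comp (innerSL ℝ)))
  have : ∀ x, Φ x = x (pr e (Φ p2)) := fun x => by
    obtain ⟨g, hg⟩ := rz x
    have a : x = (innerSL ℝ g).comp p1 + x (pr 0 1) • p2 := ContinuousLinearMap.ext fun y => by
      rw [show x y = x (pr y.1 y.2) from rfl, pr_eq, map_add, map_smul, hg, smul_eq_mul, mul_comm]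
      rfl
    have b : inner ℝ e g = Φ ((innerSL ℝ g).comp p1) := InnerProductSpace.toDual_symm_apply
    rw [pr_eq, map_add, map_smul, hg, real_inner_comm, b, smul_eq_mul, mul_comm, ← smul_eq_mul,
      ← map_smul, ← map_add, ← a]
  refine ⟨_, ?_, this⟩
  rw [← (NormedSpace.inclusionInDoubleDualLi ℝ).norm_map]
  exact congrArg norm (ContinuousLinearMap.ext fun x => (this x).symm)

lemma cts {K : Type} [TopologicalSpace K] (a : ℕ → K → ℝ) (ha : ∀ i, Continuous (a i)) {B : ℝ}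
    (b : ∀ i k, |a i k| ≤ B) : ∃ F : K × ℝ × ℝ → ℝ, Continuous F ∧
      (∀ k r t, F (k, r, t) = ∑' m, q m r (a m k) t) ∧
      ∀ k t r s, 0 ≤ r → r ≤ s → F (k, r, t) ≤ F (k, s, t) := by
  refine ⟨fun z => ∑' m, q m z.2.1 (a m z.1) z.2.2, continuous_iff_continuousAt.2 fun z => ?_,
    fun _ _ _ => rfl, fun k t r s h1 h2 => (qs _ _ fun m => b m k).tsum_le_tsum (fun m => by
      unfold q
      gcongr) (qs _ _ fun m => b m k)⟩
  refine (continuousOn_tsum (s := {p : K × ℝ × ℝ | p.2.1 ^ 2 + B ^ 2 + p.2.2 ^ 2 <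
    z.2.1 ^ 2 + B ^ 2 + z.2.2 ^ 2 + 1}) (fun m => Continuous.continuousOn ?_)
    (summable_geometric_two.mul_right _) fun m p hp => (Real.norm_of_nonneg
      (q0 _ _ _ _)).trans_le ((q2 m _ _ (b _ _)).trans (mul_le_mul_of_nonneg_left (le_of_lt hp)
        (by positivity)))).continuousAt ((isOpen_lt (by fun_prop) continuous_const).mem_nhds
          (lt_add_one _))
  have := ha m
  unfold q
  fun_prop

lemma sel {K : Type} [TopologicalSpace K] [CompactSpace K] [T2Space K] (y : K → Y)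
    (hy : ∀ i, Continuous fun k => (y k).1 i) {c d : ℝ} (hc : ∀ k, ‖y k‖ ≤ c) (h0 : 0 ≤ c)
    (hd : c < d) : ∃ τ : C(K, ℝ), ∀ k, ‖pr (y k).1 (τ k)‖ ≤ d := by
  obtain ⟨F, Fc, F0, F2⟩ := cts (fun m k => (y k).1 m.unpair.1) (fun m => hy _) (B := 2 * c)
    fun i k => (co _ _).trans ((n1 _).trans (by linarith [hc k]))
  have F1 : ∀ k t, F (k, ‖(y k).1‖, t) = ‖pr (y k).1 t‖ ^ 2 := fun k t =>
    (F0 _ _ _).trans (nsq (pr (y k).1 t)).tsum_eq
  refine exists_continuous_forall_mem_convex_of_local_const (t := fun k => {t | ‖pr (y k).1 t‖ ≤ d})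
    (fun k => ?_) fun k => ?_
  · intro s hs t ht a b ha hb hab
    have : pr (y k).1 (a • s + b • t) = a • pr (y k).1 s + b • pr (y k).1 t :=
      Prod.ext (Convex.combo_self hab (y k).1).symm rfl
    rw [mem_ofPred_eq, this, ← mem_closedBall_zero_iff]
    exact convex_closedBall 0 d (mem_closedBall_zero_iff.2 hs) (mem_closedBall_zero_iff.2 ht)
      ha hb hab
  set D := Icc 0 (2 * c) ×ˢ Icc (-(4 * c)) (4 * c)
  have D1 : IsCompact D := isCompact_Icc.prod isCompact_Icc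
  have D2 : ∀ k, (‖(y k).1‖, (y k).2) ∈ D ∩ {p | F (k, p) ≤ c ^ 2} := fun k =>
    ⟨⟨⟨norm_nonneg _, (n1 _).trans (by linarith [hc k])⟩, abs_le.1 ((n2 _).trans
      (by linarith [hc k]))⟩, (F1 k _).trans_le (pow_le_pow_left₀ (norm_nonneg _) (hc k) 2)⟩
  obtain ⟨⟨r, t⟩, p1, p2⟩ := (D1.inter_right (isClosed_le (f := fun p => F (k, p)) (by fun_prop)
    continuous_const)).exists_isMaxOn ⟨_, D2 k⟩ continuous_fst.continuousOn
  have := (Fc.comp (show Continuous fun z : K × ℝ => (z.1, z.2, t) by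
    fun_prop)).continuousAt.eventually_lt (x₀ := (k, r)) continuousAt_const
      (lt_of_le_of_lt p1.2 (pow_lt_pow_left₀ hd h0 two_ne_zero))
  rw [nhds_prod_eq] at this
  obtain ⟨_, a1, _, a2, a3⟩ := eventually_prod_iff.1 this
  obtain ⟨s, s1, s2⟩ := ((a2.filter_mono nhdsWithin_le_nhds).and
    (self_mem_nhdsWithin (s := Ioi r))).exists
  have := (D1.inter_right (isClosed_le (continuous_const (y := s))
    continuous_fst)).eventually_forall_of_forall_eventually (x₀ := k)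
      (P := fun k p => c ^ 2 < F (k, p)) fun p hp => continuousAt_const.eventually_lt
        Fc.continuousAt (not_le.1 fun h => (lt_of_lt_of_le s2 hp.2).not_ge (p2 ⟨hp.1, h⟩))
  refine ⟨t, (a1.and this).mono fun k hk => le_of_sq_le_sq ((F1 k t).ge.trans ((F2 _ _ _ _
    (norm_nonneg _) (le_of_not_ge fun h => ?_)).trans (a3 hk.1 s1).le)) (h0.trans hd.le)⟩
  exact (hk.2 _ ⟨(D2 k).1, h⟩).not_ge (D2 k).2

def X : Type := Y →L[ℝ] ℝ

noncomputable instance : NormedAddCommGroup X := inferInstanceAs (NormedAddCommGroup (Y →L[ℝ] ℝ))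
noncomputable instance : NormedSpace ℝ X := inferInstanceAs (NormedSpace ℝ (Y →L[ℝ] ℝ))
instance : CompleteSpace X := inferInstanceAs (CompleteSpace (Y →L[ℝ] ℝ))

noncomputable def ap : Y →L[ℝ] X →L[ℝ] ℝ := NormedSpace.inclusionInDoubleDual ℝ Y
noncomputable def cx (i : ℕ) : X := (lp.evalCLM ℝ (fun _ : ℕ => ℝ) 2 i).comp p1
noncomputable def px : X := p2

lemma ap1 (y : Y) (i : ℕ) : ap y (cx i) = y.1 i := rfl
lemma ap2 (y : Y) : ap y px = y.2 := rfl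
lemma ap3 (y : Y) : ‖ap y‖ = ‖y‖ := (NormedSpace.inclusionInDoubleDualLi ℝ).norm_map y
lemma ap4 (Φ : X →L[ℝ] ℝ) : ∃ y, ap y = Φ :=
  (refl Φ).imp fun _ h => ContinuousLinearMap.ext fun x => (h.2 x).symm
lemma ap5 (x : X) : ∃ g : G, ∀ e, ap (i1 e) x = inner ℝ g e := rz x
lemma ap6 : Function.Surjective (NormedSpace.inclusionInDoubleDual ℝ X) := fun Ψ =>
  ⟨Ψ.comp ap, ContinuousLinearMap.ext fun Φ => by
    obtain ⟨y, rfl⟩ := ap4 Φ
    rfl⟩

end Pool.Agent.H.MP_d85bbb_an
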